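import Pool.Agent.OneExtra.Cfg

set_option autoImplicit false

/-!
# Case 1: both `0` and `q` are common vertices
-/

namespace Pool.Agent.OneExtra

variable {q : ℤ} {V A : ℤ → Prop}

/-- `0` and `q` common, the nearest other common vertex `c` on the left. -/
theorem case_one_left (h : Cfg q V A) (hq : 10 ≤ q) (h0 : A 0) (hAq : A q) (c : ℤ) (hc0 : 0 < c)
    (hc2 : 2 * c ≤ q) (hAc : A c)
    (hmin : ∀ x, A x → x = 0 ∨ x = q ∨ (c ≤ x ∧ x ≤ q - c))
    (hz : ∃ z, A z ∧ z ≠ 0 ∧ z ≠ q ∧ z ≠ c) : False := by
  have hV0 := h.sub _ h0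
  have hVq := h.sub _ hAq
  have hVc := h.sub _ hAc
  have hne2 : ∀ x, A x → 2 * x ≠ q := by
    intro x hx h2
    exact h.cf hx hV0 hx hVq (by omega)
  have hc2' := hne2 c hAc
  -- (1a)
  have hVR : ∀ t, 0 < t → t < c → V t ∨ V (q - t) := by
    intro t ht1 ht2
    obtain ⟨i, j, hij, hi, hj, hVi, hVj, hA⟩ := h.cv t (by omega) (by omega)
    rcases hA with hA | hA
    · have h1 : i = 0 := by
        rcases hmin i hA with h1 | h1 | h1 <;> omega
      have h2 : j = t := by omega
      rw [h2] at hVj
      exact Or.inr hVj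
    · have h1 : j = 0 := by
        rcases hmin _ hA with h1 | h1 | h1 <;> omega
      have h2 : i = t := by omega
      rw [h2] at hVi
      exact Or.inl hVi
  have nV1 : ∀ t, 0 < t → t < c → ¬ V t := by
    intro t ht1 ht2 ht
    rcases hVR (c - t) (by omega) (by omega) with h1 | h1
    · exact h.cf h0 h1 hAc ht (by omega)
    · exact h.cf hAq h1 hAc ht (by omega)
  have R1 : ∀ t, 0 ≤ t → t < c → V (q - t) := by
    intro t ht1 ht2
    rcases eq_or_lt_of_le ht1 with h1 | h1
    · rw [← h1]; simpa using hVq
    · rcases hVR t h1 ht2 with h2 | h2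
      · exact absurd h2 (nV1 t h1 ht2)
      · exact h2
  -- (1b)
  have nV2 : ∀ x, c < x → x ≤ 2 * c → ¬ V x := by
    intro x hx1 hx2 hx
    rcases eq_or_lt_of_le hx2 with h1 | h1
    · exact h.cf h0 hVc hAc hx (by omega)
    · exact h.cf hAq (R1 (x - c) (by omega) (by omega)) hAc hx (by omega)
  -- (1c)
  have nR1 : ∀ t, c ≤ t → t < 2 * c → ¬ V (q - t) := by
    intro t ht1 ht2 ht
    exact h.cf h0 ht hAc (R1 (t - c) (by omega) (by omega)) (by omega)
  obtain ⟨z, ⟨hAz, hz0, hzq, hzc⟩, hzmin⟩ := exists_near q
    (fun z => A z ∧ z ≠ 0 ∧ z ≠ q ∧ z ≠ c) hz (fun x hx => h.rng x (h.sub x hx.1))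
  have hzr := hmin z hAz
  have hz2 := hne2 z hAz
  have hzV := h.sub z hAz
  have hzz : c ≤ z ∧ z ≤ q - c := by
    rcases hzr with h1 | h1 | h1
    · exact absurd h1 hz0
    · exact absurd h1 hzq
    · exact h1
  have hall : ∀ x, A x → x = 0 ∨ x = q ∨ x = c ∨ (min z (q - z) ≤ x ∧ x ≤ q - min z (q - z)) := by
    intro x hx
    by_cases h1 : x = 0
    · exact Or.inl h1
    by_cases h2 : x = q
    · exact Or.inr (Or.inl h2)
    by_cases h3 : x = c
    · exact Or.inr (Or.inr (Or.inl h3))
    have := hzmin x ⟨hx, h1, h2, h3⟩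
    omega
  rcases lt_or_gt_of_ne hz2 with hzl | hzr'
  · -- (1L)
    have hd1 : 2 * c < z := by
      by_contra h1
      exact nV2 z (by omega) (by omega) hzV
    have hmz : min z (q - z) = z := by omega
    rw [hmz] at hall
    have hR2c : V (q - 2 * c) := by
      obtain ⟨i, j, hij, hi, hj, hVi, hVj, hA⟩ := h.cv (2 * c) (by omega) (by omega)
      rcases hA with hA | hA
      · rcases hall i hA with h1 | h1 | h1 | h1
        · have h2 : j = 2 * c := by omega
          rwa [h2] at hVj
        · omega
        · exact absurd hVj (nR1 j (by omega) (by omega))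
        · omega
      · rcases hall _ hA with h1 | h1 | h1 | h1
        · omega
        · exact absurd hVi (nV2 i (by omega) (by omega))
        · omega
        · omega
    have nV : ∀ x, z < x → x ≤ z + c → ¬ V x := by
      intro x hx1 hx2 hx
      rcases eq_or_lt_of_le hx2 with h1 | h1
      · exact h.cf h0 hVc hAz hx (by omega)
      · exact h.cf hAq hx hAz (R1 (x - z) (by omega) (by omega)) (by omega)
    have nR : ∀ j, z ≤ j → j ≤ z + c → ¬ V (q - j) := by
      intro j hj1 hj2 hj
      rcases eq_or_lt_of_le hj2 with h1 | h1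
      · exact h.cf hAc hj hAz hR2c (by omega)
      · exact h.cf h0 hj hAz (R1 (j - z) (by omega) (by omega)) (by omega)
    obtain ⟨i, j, hij, hi, hj, hVi, hVj, hA⟩ := h.cv (z + c) (by omega) (by omega)
    rcases hA with hA | hA
    · rcases hall i hA with h1 | h1 | h1 | h1
      · exact nR j (by omega) (by omega) hVj
      · omega
      · exact nR j (by omega) (by omega) hVj
      · rcases eq_or_lt_of_le h1.1 with h2 | h2
        · exact nR1 j (by omega) (by omega) hVj
        · exact nV i (by omega) (by omega) hVi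
    · rcases hall _ hA with h1 | h1 | h1 | h1
      · omega
      · exact nV i (by omega) (by omega) hVi
      · exact nR j (by omega) (by omega) hVj
      · exact nR j (by omega) (by omega) hVj
  · -- (1R)
    obtain ⟨b, hb⟩ : ∃ b, b = q - z := ⟨_, rfl⟩
    have hzb : z = q - b := by omega
    rw [hzb] at hAz hzV
    have hmz : min z (q - z) = b := by omega
    rw [hmz] at hall
    have hbc : 2 * c ≤ b := by
      by_contra h1
      exact nR1 b (by omega) (by omega) hzV
    rcases eq_or_lt_of_le hbc with hb2 | hb2
    · -- b = 2c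
      have n3 : ∀ x, c < x → x ≤ 3 * c → ¬ V x := by
        intro x hx1 hx2 hx
        rcases lt_trichotomy (x - c) c with h1 | h1 | h1
        · exact h.cf hAq (R1 (x - c) (by omega) (by omega)) hAc hx (by omega)
        · exact h.cf h0 hVc hAc hx (by omega)
        · exact h.cf hAz (R1 (3 * c - x) (by omega) (by omega)) hAc hx (by omega)
      have m3 : ∀ j, 2 * c < j → j ≤ 4 * c → ¬ V (q - j) := by
        intro j hj1 hj2 hj
        rcases lt_trichotomy (j - 2 * c) c with h1 | h1 | h1
        · exact h.cf hAq (R1 (j - 2 * c) (by omega) (by omega)) hAz hj (by omega)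
        · exact h.cf h0 hVc hAz hj (by omega)
        · exact h.cf hAz (R1 (4 * c - j) (by omega) (by omega)) hAz hj (by omega)
      by_cases hc1 : c = 1
      · subst hc1
        have hb' : b = 2 := by omega
        subst hb'
        have hV4 : V 4 := by
          obtain ⟨i, j, hij, hi, hj, hVi, hVj, hA⟩ := h.cv 4 (by omega) (by omega)
          have h1 : i = 4 ∨ (i = 3 ∨ i = 2) ∨ j = 4 ∨ j = 3 := by omega
          rcases h1 with h1 | h1 | h1 | h1
          · rwa [h1] at hVi
          · exact absurd hVi (n3 i (by omega) (by omega))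
          · exact absurd hVj (m3 j (by omega) (by omega))
          · exact absurd hVj (m3 j (by omega) (by omega))
        obtain ⟨i, j, hij, hi, hj, hVi, hVj, hA⟩ := h.cv 5 (by omega) (by omega)
        have h1 : i = 5 ∨ (i = 4) ∨ (i = 3 ∨ i = 2) ∨ j = 5 ∨ (j = 4) := by omega
        rcases h1 with h1 | h1 | h1 | h1 | h1
        · exact h.cf hAc hVi h0 hV4 (by omega)
        · exact nR1 j (by omega) (by omega) hVj
        · exact n3 i (by omega) (by omega) hVi
        · exact h.cf hAc hVj hAz hV4 (by omega)
        · exact m3 j (by omega) (by omega) hVj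
      · obtain ⟨i, j, hij, hi, hj, hVi, hVj, hA⟩ := h.cv (2 * c + 1) (by omega) (by omega)
        rcases hA with hA | hA
        · rcases hall i hA with h1 | h1 | h1 | h1
          · exact m3 j (by omega) (by omega) hVj
          · omega
          · exact nR1 j (by omega) (by omega) hVj
          · exact n3 i (by omega) (by omega) hVi
        · rcases hall _ hA with h1 | h1 | h1 | h1
          · omega
          · exact n3 i (by omega) (by omega) hVi
          · omega
          · rcases eq_or_lt_of_le (show b ≤ j by omega) with h2 | h2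
            · exact nV1 i (by omega) (by omega) hVi
            · exact m3 j (by omega) (by omega) hVj
    · -- b > 2c
      have hR2c : V (q - 2 * c) := by
        obtain ⟨i, j, hij, hi, hj, hVi, hVj, hA⟩ := h.cv (2 * c) (by omega) (by omega)
        rcases hA with hA | hA
        · rcases hall i hA with h1 | h1 | h1 | h1
          · have h2 : j = 2 * c := by omega
            rwa [h2] at hVj
          · omega
          · exact absurd hVj (nR1 j (by omega) (by omega))
          · omega
        · rcases hall _ hA with h1 | h1 | h1 | h1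
          · omega
          · exact absurd hVi (nV2 i (by omega) (by omega))
          · omega
          · omega
      obtain ⟨i, j, hij, hi, hj, hVi, hVj, hA⟩ := h.cv (b - c) (by omega) (by omega)
      rcases hA with hA | hA
      · rcases hall i hA with h1 | h1 | h1 | h1
        · exact h.cf hAc hVj h0 hzV (by omega)
        · omega
        · exact h.cf hAq hVj hAz hR2c (by omega)
        · omega
      · rcases hall _ hA with h1 | h1 | h1 | h1
        · omega
        · exact h.cf hAc hVi hAz hR2c (by omega)
        · omega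
        · omega

/-- Case 1. -/
theorem case_one (h : Cfg q V A) (hq : 10 ≤ q) (h0 : A 0) (hAq : A q)
    (hz : ∀ c, ∃ z, A z ∧ z ≠ 0 ∧ z ≠ q ∧ z ≠ c) : False := by
  obtain ⟨c, ⟨hAc, hc0, hcq⟩, hmin⟩ := exists_near q (fun z => A z ∧ z ≠ 0 ∧ z ≠ q)
    (by obtain ⟨z, h1, h2, h3, -⟩ := hz 0; exact ⟨z, h1, h2, h3⟩)
    (fun x hx => h.rng x (h.sub x hx.1))
  have hcr := h.rng c (h.sub c hAc)
  by_cases hcl : 2 * c ≤ q
  · refine case_one_left h hq h0 hAq c (by omega) hcl hAc ?_ (hz c)
    intro x hx
    by_cases h1 : x = 0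
    · exact Or.inl h1
    by_cases h2 : x = q
    · exact Or.inr (Or.inl h2)
    have := hmin x ⟨hx, h1, h2⟩
    omega
  · refine case_one_left h.refl hq (by simpa using hAq) (by simpa using h0) (q - c) (by omega)
      (by omega) (by simpa using hAc) ?_ ?_
    · intro x hx
      by_cases h1 : x = 0
      · exact Or.inl h1
      by_cases h2 : x = q
      · exact Or.inr (Or.inl h2)
      have := hmin (q - x) ⟨hx, by omega, by omega⟩
      omega
    · obtain ⟨z, h1, h2, h3, h4⟩ := hz c
      exact ⟨q - z, by simpa using h1, by omega, by omega, by omega⟩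

end Pool.Agent.OneExtra
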