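import Pool.Agent.OneExtra.Cfg

set_option autoImplicit false

/-!
# Case 2a: `0` is a common vertex, `q` is not, the nearest other common vertex is on the left
-/

namespace Pool.Agent.OneExtra

variable {q : ℤ} {V A : ℤ → Prop}

/-- The next common vertex is on the left. -/
theorem case_left_left (h : Cfg q V A) (hq : 10 ≤ q) (h0 : A 0) (c d : ℤ) (hc0 : 0 < c)
    (hcd : c < d) (hd2 : 2 * d < q) (hAc : A c) (hAd : A d)
    (hmin : ∀ x, A x → x = 0 ∨ x = c ∨ (d ≤ x ∧ x ≤ q - d)) (R1 : ∀ t, 0 ≤ t → t < c → V (q - t))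
    (nR1 : ∀ t, c ≤ t → t < 2 * c → ¬ V (q - t)) : False := by
  have hVc := h.sub _ hAc
  have hVd := h.sub _ hAd
  have hVq := h.Vq (by omega)
  have hd3 : 2 * c < d := by
    by_contra h1
    rcases eq_or_lt_of_le (show d ≤ 2 * c by omega) with h2 | h2
    · exact h.cf h0 hVc hAc hVd (by omega)
    · exact h.cf hAc (R1 (d - c) (by omega) (by omega)) hAd hVq (by omega)
  have hR2c : V (q - 2 * c) := by
    obtain ⟨i, j, hij, hi, hj, hVi, hVj, hA⟩ := h.cv (2 * c) (by omega) (by omega)
    rcases hA with hA | hA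
    · rcases hmin i hA with h1 | h1 | h1
      · have h2 : j = 2 * c := by omega
        rwa [h2] at hVj
      · exact absurd hVj (nR1 j (by omega) (by omega))
      · omega
    · rcases hmin _ hA with h1 | h1 | h1 <;> omega
  have nR : ∀ j, d ≤ j → j ≤ d + c → ¬ V (q - j) := by
    intro j hj1 hj2 hj
    rcases eq_or_lt_of_le hj2 with h1 | h1
    · exact h.cf hAc hj hAd hR2c (by omega)
    · exact h.cf h0 hj hAd (R1 (j - d) (by omega) (by omega)) (by omega)
  have nA : ∀ x, d < x → x ≤ d + c → ¬ A x := by
    intro x hx1 hx2 hx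
    rcases eq_or_lt_of_le hx2 with h1 | h1
    · exact h.cf h0 hVc hAd (h.sub _ hx) (by omega)
    · exact h.cf hx hVq hAd (R1 (x - d) (by omega) (by omega)) (by omega)
  obtain ⟨i, j, hij, hi, hj, hVi, hVj, hA⟩ := h.cv (d + c) (by omega) (by omega)
  rcases hA with hA | hA
  · rcases hmin i hA with h1 | h1 | h1
    · exact nR j (by omega) (by omega) hVj
    · exact nR j (by omega) (by omega) hVj
    · rcases eq_or_lt_of_le h1.1 with h2 | h2
      · exact nR1 j (by omega) (by omega) hVj
      · exact nA i (by omega) (by omega) hA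
  · rcases hmin _ hA with h1 | h1 | h1
    · omega
    · exact nR j (by omega) (by omega) hVj
    · exact nR j (by omega) (by omega) hVj

/-- The periodic pattern. `K` runs over the multiples of `2 * c`. -/
theorem pattern (h : Cfg q V A) (h0 : A 0) (c b : ℤ) (hc0 : 0 < c)
    (hb2 : 2 * b < q) (hcb : 2 * c ≤ b) (hAc : A c)
    (hmin : ∀ x, A x → x = 0 ∨ x = c ∨ (b ≤ x ∧ x ≤ q - b)) (R1 : ∀ t, 0 ≤ t → t < c → V (q - t))
    (k : ℕ) : ∀ t, 0 ≤ t → t < c →
      ((2 * (k : ℤ) * c + t < b → V (q - (2 * (k : ℤ) * c + t))) ∧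
      (2 * (k : ℤ) * c + c + t < b → ¬ V (q - (2 * (k : ℤ) * c + c + t)))) := by
  have key1 : ∀ u, c ≤ u → u < b → V (q - u) → ¬ V (q - (u - c)) := by
    intro u hu1 hu2 hu3 hu4
    exact h.cf h0 hu3 hAc hu4 (by omega)
  have key2 : ∀ u, c ≤ u → u < b → ¬ V (q - (u - c)) → V (q - u) := by
    intro u hu1 hu2 hu3
    obtain ⟨i, j, hij, hi, hj, hVi, hVj, hA⟩ := h.cv u (by omega) (by omega)
    rcases hA with hA | hA
    · rcases hmin i hA with h1 | h1 | h1
      · have h2 : j = u := by omega
        rwa [h2] at hVj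
      · have h2 : j = u - c := by omega
        rw [h2] at hVj
        exact absurd hVj hu3
      · omega
    · exfalso
      rcases hmin _ hA with h1 | h1 | h1 <;> omega
  induction k with
  | zero =>
    intro t ht1 ht2
    refine ⟨fun h1 => ?_, fun h1 h2 => ?_⟩
    · simpa using R1 t ht1 ht2
    · refine key1 _ ?_ ?_ h2 ?_
      · push_cast
        omega
      · exact h1
      · have := R1 t ht1 ht2
        simpa using this
  | succ k ih =>
    intro t ht1 ht2
    obtain ⟨ih1, ih2⟩ := ih t ht1 ht2
    have hk : (0 : ℤ) ≤ 2 * (k : ℤ) * c := by positivity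
    have hk1 : 2 * ((k + 1 : ℕ) : ℤ) * c = 2 * (k : ℤ) * c + c + c := by push_cast; ring
    rw [hk1]
    generalize 2 * (k : ℤ) * c = K at *
    have h3 : K + c + c + t < b → V (q - (K + c + c + t)) := by
      intro h1
      apply key2 _ (by omega) h1
      have := ih2 (by omega)
      have h4 : K + c + c + t - c = K + c + t := by ring
      rwa [h4]
    refine ⟨h3, fun h1 h2 => ?_⟩
    apply key1 _ _ h1 h2
    · have h5 : K + c + c + c + t - c = K + c + c + t := by ring
      rw [h5]
      exact h3 (by omega)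
    · omega

/-- The next common vertex `q - b` is on the right. -/
theorem case_left_right (h : Cfg q V A) (hq : 10 ≤ q) (h0 : A 0) (c b : ℤ) (hc0 : 0 < c)
    (hb2 : 2 * b < q) (hcb : 2 * c ≤ b) (hAc : A c) (hAb : A (q - b))
    (hmin : ∀ x, A x → x = 0 ∨ x = c ∨ (b ≤ x ∧ x ≤ q - b)) (R1 : ∀ t, 0 ≤ t → t < c → V (q - t))
    (nR1 : ∀ t, c ≤ t → t < 2 * c → ¬ V (q - t))
    (hz : ∃ z, A z ∧ z ≠ 0 ∧ z ≠ q - b ∧ z ≠ c) : False := by
  have hV0 := h.V0 (by omega)
  have hVq := h.Vq (by omega)
  have hVc := h.sub _ hAc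
  have hVb := h.sub _ hAb
  have nF : ∀ x, A x → x ≠ 0 → ¬ V (q - x) := by
    intro x hx hx0 h1
    have := h.rng _ (h.sub _ hx)
    have h3 := hmin x hx
    by_cases h2 : 2 * x = q
    · exact h.cf hx hV0 hx hVq (by omega)
    · exact h.cf h0 h1 hx hVq (by omega)
  -- the common vertices other than `0`, `c`, `q - b` are far from them
  have far : ∀ z, A z → z ≠ 0 → z ≠ q - b → z ≠ c → b + c < z ∧ z < q - b - c := by
    intro z hAz hz0 hzb hzc
    have hzV := h.sub z hAz
    have hzr : b ≤ z ∧ z ≤ q - b := by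
      rcases hmin z hAz with h1 | h1 | h1
      · exact absurd h1 hz0
      · exact absurd h1 hzc
      · exact h1
    have hzb1 : z ≠ b := by
      intro h1
      exact nF (q - b) hAb (by omega) (by rw [h1] at hzV; simpa using hzV)
    constructor
    · by_contra h1
      exact h.cf hAz (R1 (c - (z - b)) (by omega) (by omega)) hAc hVb (by omega)
    · by_contra h1
      rcases eq_or_lt_of_le (show q - b - c ≤ z by omega) with h2 | h2
      · exact h.cf h0 hzV hAc hVb (by omega)
      · exact h.cf hAz (R1 (q - b - z) (by omega) (by omega)) hAb hVq (by omega)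
  have hall : ∀ x, A x → x = 0 ∨ x = q - b ∨ x = c ∨ (b + c < x ∧ x < q - b - c) := by
    intro x hx
    by_cases h1 : x = 0
    · exact Or.inl h1
    by_cases h2 : x = q - b
    · exact Or.inr (Or.inl h2)
    by_cases h3 : x = c
    · exact Or.inr (Or.inr (Or.inl h3))
    exact Or.inr (Or.inr (Or.inr (far x hx h1 h2 h3)))
  have hq2 : 2 * b + 2 * c + 2 ≤ q := by
    obtain ⟨z, h1, h2, h3, h4⟩ := hz
    have := far z h1 h2 h3 h4
    omega
  -- no vertex strictly between `0` and `c`
  have nV1 : ∀ y, 0 < y → y < c → ¬ V y := by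
    intro y hy1 hy2 hy
    obtain ⟨i, j, hij, hi, hj, hVi, hVj, hA⟩ := h.cv (b + c - y) (by omega) (by omega)
    rcases hA with hA | hA
    · rcases hall i hA with h1 | h1 | h1 | h1
      · exact h.cf hAb hVj hAc hy (by omega)
      · omega
      · exact h.cf hAb hVj h0 hy (by omega)
      · omega
    · rcases hall _ hA with h1 | h1 | h1 | h1
      · omega
      · by_cases h2 : 2 * y = c
        · exact h.cf h0 hy hAc hy (by omega)
        · exact h.cf h0 hVi hAc hy (by omega)
      · omega
      · omega
  -- the pattern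
  have hbc : ¬ V (q - (b - c)) := by
    intro h1
    exact h.cf hAc h1 h0 hVb (by omega)
  obtain ⟨k, e, he0, hec, hbe⟩ : ∃ (k : ℕ) (e : ℤ), 0 ≤ e ∧ e < c ∧
      b = 2 * (k : ℤ) * c + c + c + e := by
    have h2c : 0 < 2 * c := by omega
    have h1 := Int.emod_add_mul_ediv b (2 * c)
    have h2 := Int.emod_nonneg b (show 2 * c ≠ 0 by omega)
    have h3 := Int.emod_lt_of_pos b h2c
    have h4 : 1 ≤ b / (2 * c) := by
      rw [Int.le_ediv_iff_mul_le h2c]
      omega
    obtain ⟨k, hk⟩ : ∃ k : ℕ, b / (2 * c) = (k : ℤ) + 1 :=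
      ⟨(b / (2 * c) - 1).toNat, by omega⟩
    rw [hk] at h1
    have h5 : 2 * c * ((k : ℤ) + 1) = 2 * (k : ℤ) * c + c + c := by ring
    rw [h5] at h1
    refine ⟨k, b % (2 * c), h2, ?_, by omega⟩
    by_contra h6
    apply hbc
    have h7 := (pattern h h0 c b hc0 hb2 hcb hAc hmin R1 (k + 1) (b % (2 * c) - c) (by omega)
      (by omega)).1
    have h8 : 2 * ((k + 1 : ℕ) : ℤ) * c = 2 * (k : ℤ) * c + c + c := by push_cast; ring
    rw [h8] at h7
    have h9 := h7 (by omega)
    have h10 : 2 * (k : ℤ) * c + c + c + (b % (2 * c) - c) = b - c := by omega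
    rwa [h10] at h9
  have pat := pattern h h0 c b hc0 hb2 hcb hAc hmin R1 k
  have pat' := pattern h h0 c b hc0 hb2 hcb hAc hmin R1 (k + 1)
  have hk1 : 2 * ((k + 1 : ℕ) : ℤ) * c = 2 * (k : ℤ) * c + c + c := by push_cast; ring
  rw [hk1] at pat'
  have hK0 : (0 : ℤ) ≤ 2 * (k : ℤ) * c := by positivity
  obtain ⟨K, hK⟩ : ∃ K, K = 2 * (k : ℤ) * c := ⟨_, rfl⟩
  have hR2c : V (q - 2 * c) := by
    rcases eq_or_lt_of_le hcb with h1 | h1
    · rw [h1]; exact hVb
    · have h2 := (pattern h h0 c b hc0 hb2 hcb hAc hmin R1 1 0 le_rfl hc0).1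
      norm_num at h2
      exact h2 h1
  rw [← hK] at pat pat' hbe hK0
  -- `R` on `[K, K + c)`, not on `[K + c, K + 2c)`, on `[K + 2c, b]`
  have RK : ∀ u, K ≤ u → u < K + c → V (q - u) := by
    intro u hu1 hu2
    have := (pat (u - K) (by omega) (by omega)).1 (by omega)
    have h1 : K + (u - K) = u := by ring
    rwa [h1] at this
  have nRK : ∀ u, K + c ≤ u → u < K + c + c → ¬ V (q - u) := by
    intro u hu1 hu2
    have := (pat (u - K - c) (by omega) (by omega)).2 (by omega)
    have h1 : K + c + (u - K - c) = u := by ring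
    rwa [h1] at this
  have RK2 : ∀ u, K + c + c ≤ u → u ≤ b → V (q - u) := by
    intro u hu1 hu2
    rcases eq_or_lt_of_le hu2 with h1 | h1
    · rw [h1]; exact hVb
    · have := (pat' (u - K - c - c) (by omega) (by omega)).1 (by omega)
      have h1 : K + c + c + (u - K - c - c) = u := by ring
      rwa [h1] at this
  -- the three cases for `e`
  by_cases he : e = 0
  · -- e = 0
    have RB : ∀ u, b ≤ u → u < b + c → V (q - u) := by
      intro u hu1 hu2
      rcases eq_or_lt_of_le hu1 with h1 | h1
      · rw [← h1]; exact hVb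
      · obtain ⟨i, j, hij, hi, hj, hVi, hVj, hA⟩ := h.cv u (by omega) (by omega)
        rcases hA with hA | hA
        · rcases hall i hA with h1 | h1 | h1 | h1
          · have h2 : j = u := by omega
            rwa [h2] at hVj
          · omega
          · exact absurd hVj (nRK j (by omega) (by omega))
          · omega
        · rcases hall _ hA with h1 | h1 | h1 | h1
          · omega
          · exact absurd hVi (nV1 i (by omega) (by omega))
          · omega
          · omega
    have nRB : ∀ u, b + c ≤ u → u < b + 2 * c → ¬ V (q - u) := by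
      intro u hu1 hu2 hu
      exact h.cf h0 hu hAc (RB (u - c) (by omega) (by omega)) (by omega)
    have nRB2 : ¬ V (q - (b + 2 * c)) := by
      intro h1
      exact h.cf hAb h1 hAb (RK (b - 2 * c) (by omega) (by omega)) (by omega)
    have nV2c : ¬ V (2 * c) := by
      intro h1
      exact h.cf h0 h1 hAb (RK (b - 2 * c) (by omega) (by omega)) (by omega)
    have nAB : ∀ u, b + c ≤ u → u < b + 2 * c → ¬ A u := by
      intro u hu1 hu2 hu
      exact h.cf hu hVq hAc (RB (u - c) (by omega) (by omega)) (by omega)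
    have hAd : A (b + 2 * c) := by
      obtain ⟨i, j, hij, hi, hj, hVi, hVj, hA⟩ := h.cv (b + 2 * c) (by omega) (by omega)
      rcases hA with hA | hA
      · rcases hall i hA with h1 | h1 | h1 | h1
        · have h2 : j = b + 2 * c := by omega
          rw [h2] at hVj
          exact absurd hVj nRB2
        · omega
        · exact absurd hVj (nRB j (by omega) (by omega))
        · rcases eq_or_lt_of_le (show i ≤ b + 2 * c by omega) with h2 | h2
          · rwa [h2] at hA
          · exact absurd hA (nAB i (by omega) (by omega))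
      · by_cases h2 : b = j
        · have h3 : i = 2 * c := by omega
          rw [h3] at hVi
          exact absurd hVi nV2c
        · have h3 : b + c < j := by
            rcases hall _ hA with h6 | h6 | h6 | h6 <;> omega
          rcases eq_or_lt_of_le (show j ≤ b + 2 * c by omega) with h4 | h4
          · rw [h4] at hVj
            exact absurd hVj nRB2
          · exact absurd hVj (nRB j (by omega) (by omega))
    obtain ⟨d, hd⟩ : ∃ d, d = b + 2 * c := ⟨_, rfl⟩
    rw [← hd] at hAd
    have hdfar := far d hAd (by omega) (by omega) (by omega)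
    have nRd : ∀ j, d ≤ j → j ≤ d + c → ¬ V (q - j) := by
      intro j hj1 hj2 hj
      rcases eq_or_lt_of_le hj2 with h1 | h1
      · exact h.cf hAc hj hAd hR2c (by omega)
      · exact h.cf h0 hj hAd (R1 (j - d) (by omega) (by omega)) (by omega)
    have nAd : ∀ x, d < x → x ≤ d + c → ¬ A x := by
      intro x hx1 hx2 hx
      rcases eq_or_lt_of_le hx2 with h1 | h1
      · exact h.cf h0 hVc hAd (h.sub _ hx) (by omega)
      · exact h.cf hx hVq hAd (R1 (x - d) (by omega) (by omega)) (by omega)
    obtain ⟨i, j, hij, hi, hj, hVi, hVj, hA⟩ := h.cv (d + c) (by omega) (by omega)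
    rcases hA with hA | hA
    · rcases hall i hA with h1 | h1 | h1 | h1
      · exact nRd j (by omega) (by omega) hVj
      · omega
      · exact nRd j (by omega) (by omega) hVj
      · rcases lt_trichotomy i d with h2 | h2 | h2
        · exact nAB i (by omega) (by omega) hA
        · exact nR1 j (by omega) (by omega) hVj
        · exact nAd i (by omega) (by omega) hA
    · by_cases h2 : b = j
      · have h3 : i = 3 * c := by omega
        exact h.cf hAc hVi hAb (RK (b - 2 * c) (by omega) (by omega)) (by omega)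
      · have h3 : b + c < j := by
          rcases hall _ hA with h6 | h6 | h6 | h6 <;> omega
        rcases lt_or_ge j d with h4 | h4
        · exact nRB j (by omega) (by omega) hVj
        · exact nRd j (by omega) (by omega) hVj
  by_cases he' : e = c - 1
  · -- e = c - 1
    have nRB : ∀ u, b < u → u ≤ b + c → ¬ V (q - u) := by
      intro u hu1 hu2 hu
      exact h.cf h0 hu hAc (RK2 (u - c) (by omega) (by omega)) (by omega)
    have nRB2 : ¬ V (q - (b + 2 * c)) := by
      intro h1
      exact h.cf hAb h1 hAb (RK (b - 2 * c) (by omega) (by omega)) (by omega)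
    obtain ⟨d, hAd, hd1, hd2⟩ : ∃ d, A d ∧ b + c < d ∧ d ≤ b + 2 * c := by
      obtain ⟨i, j, hij, hi, hj, hVi, hVj, hA⟩ := h.cv (b + 2 * c) (by omega) (by omega)
      rcases hA with hA | hA
      · rcases hall i hA with h1 | h1 | h1 | h1
        · have h2 : j = b + 2 * c := by omega
          rw [h2] at hVj
          exact absurd hVj nRB2
        · omega
        · exact absurd hVj (nRB j (by omega) (by omega))
        · exact ⟨i, hA, h1.1, by omega⟩
      · exfalso
        by_cases h2 : b = j
        · exact h.cf h0 hVi hAb (RK (b - 2 * c) (by omega) (by omega)) (by omega)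
        · have h3 : b + c < j := by
            rcases hall _ hA with h6 | h6 | h6 | h6 <;> omega
          rcases eq_or_lt_of_le (show j ≤ b + 2 * c by omega) with h4 | h4
          · rw [h4] at hVj
            exact nRB2 hVj
          · exact nV1 i (by omega) (by omega) hVi
    have hAd' : A (b + c + 1) := by
      by_cases hdd : d = b + c + 1
      · rwa [hdd] at hAd
      have nR3 : ¬ V (q - (b + c + 1)) := by
        intro h1
        exact h.cf hAc h1 hAd (R1 (b + 2 * c + 1 - d) (by omega) (by omega)) (by omega)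
      obtain ⟨i, j, hij, hi, hj, hVi, hVj, hA⟩ := h.cv (b + c + 1) (by omega) (by omega)
      rcases hA with hA | hA
      · rcases hall i hA with h1 | h1 | h1 | h1
        · have h2 : j = b + c + 1 := by omega
          rw [h2] at hVj
          exact absurd hVj nR3
        · omega
        · exact absurd hVj (nRB j (by omega) (by omega))
        · have h2 : i = b + c + 1 := by omega
          rwa [h2] at hA
      · exfalso
        by_cases h2 : b = j
        · exact h.cf hAc hVi hAb (RK2 (b - 1) (by omega) (by omega)) (by omega)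
        · have h3 : b + c < j := by
            rcases hall _ hA with h6 | h6 | h6 | h6 <;> omega
          have h4 : j = b + c + 1 := by omega
          rw [h4] at hVj
          exact nR3 hVj
    clear hAd hd1 hd2
    obtain ⟨d, hd⟩ : ∃ d, d = b + c + 1 := ⟨_, rfl⟩
    rw [← hd] at hAd'
    have hdfar := far d hAd' (by omega) (by omega) (by omega)
    have nRd : ∀ j, d ≤ j → j ≤ d + c → ¬ V (q - j) := by
      intro j hj1 hj2 hj
      rcases eq_or_lt_of_le hj2 with h1 | h1
      · exact h.cf hAc hj hAd' hR2c (by omega)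
      · exact h.cf h0 hj hAd' (R1 (j - d) (by omega) (by omega)) (by omega)
    have nAd : ∀ x, d < x → x ≤ d + c → ¬ A x := by
      intro x hx1 hx2 hx
      rcases eq_or_lt_of_le hx2 with h1 | h1
      · exact h.cf h0 hVc hAd' (h.sub _ hx) (by omega)
      · exact h.cf hx hVq hAd' (R1 (x - d) (by omega) (by omega)) (by omega)
    obtain ⟨i, j, hij, hi, hj, hVi, hVj, hA⟩ := h.cv (d + c) (by omega) (by omega)
    rcases hA with hA | hA
    · rcases hall i hA with h1 | h1 | h1 | h1
      · exact nRd j (by omega) (by omega) hVj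
      · omega
      · exact nRd j (by omega) (by omega) hVj
      · rcases eq_or_lt_of_le (show d ≤ i by omega) with h2 | h2
        · exact nR1 j (by omega) (by omega) hVj
        · exact nAd i (by omega) (by omega) hA
    · by_cases h2 : b = j
      · exact h.cf h0 hVi hAb (RK (b - 2 * c - 1) (by omega) (by omega)) (by omega)
      · have h3 : b + c < j := by
          rcases hall _ hA with h6 | h6 | h6 | h6 <;> omega
        exact nRd j (by omega) (by omega) hVj
  · -- 0 < e < c - 1
    obtain ⟨i, j, hij, hi, hj, hVi, hVj, hA⟩ := h.cv (b + 1) (by omega) (by omega)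
    rcases hA with hA | hA
    · rcases hall i hA with h1 | h1 | h1 | h1
      · exact h.cf hAb hVj hAb (RK2 (b - 1) (by omega) (by omega)) (by omega)
      · omega
      · exact nRK j (by omega) (by omega) hVj
      · omega
    · rcases hall _ hA with h1 | h1 | h1 | h1
      · omega
      · exact nV1 i (by omega) (by omega) hVi
      · omega
      · omega

/-- Case 2a. -/
theorem case_two_left (h : Cfg q V A) (hq : 10 ≤ q) (h0 : A 0) (c : ℤ) (hc0 : 0 < c)
    (hc2 : 2 * c ≤ q) (hAc : A c) (hmin : ∀ x, A x → x = 0 ∨ (c ≤ x ∧ x ≤ q - c))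
    (hz : ∀ a b, ∃ z, A z ∧ z ≠ 0 ∧ z ≠ a ∧ z ≠ b) : False := by
  have hV0 := h.V0 (by omega)
  have hVq := h.Vq (by omega)
  have hVc := h.sub _ hAc
  have hne2 : ∀ x, A x → 2 * x ≠ q := by
    intro x hx h2
    exact h.cf hx hV0 hx hVq (by omega)
  have hc2' := hne2 _ hAc
  have R1 : ∀ t, 0 ≤ t → t < c → V (q - t) := by
    intro t ht1 ht2
    obtain ⟨i, j, hij, hi, hj, hVi, hVj, hA⟩ := h.cv t (by omega) (by omega)
    rcases hA with hA | hA
    · have h1 : i = 0 := by
        rcases hmin i hA with h1 | h1 <;> omega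
      have h2 : j = t := by omega
      rwa [h2] at hVj
    · exfalso
      rcases hmin _ hA with h1 | h1 <;> omega
  have nR1 : ∀ t, c ≤ t → t < 2 * c → ¬ V (q - t) := by
    intro t ht1 ht2 ht
    exact h.cf h0 ht hAc (R1 (t - c) (by omega) (by omega)) (by omega)
  obtain ⟨z, ⟨hAz, hz0, hzc⟩, hzmin⟩ := exists_near q
    (fun z => A z ∧ z ≠ 0 ∧ z ≠ c)
    (by obtain ⟨z, h1, h2, h3, -⟩ := hz c 0; exact ⟨z, h1, h2, h3⟩)
    (fun x hx => h.rng x (h.sub x hx.1))
  have hz2 := hne2 z hAz
  have hzV := h.sub z hAz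
  have hzz : c ≤ z ∧ z ≤ q - c := by
    rcases hmin z hAz with h1 | h1
    · exact absurd h1 hz0
    · exact h1
  have hall : ∀ x, A x → x = 0 ∨ x = c ∨ (min z (q - z) ≤ x ∧ x ≤ q - min z (q - z)) := by
    intro x hx
    by_cases h1 : x = 0
    · exact Or.inl h1
    by_cases h3 : x = c
    · exact Or.inr (Or.inl h3)
    have := hzmin x ⟨hx, h1, h3⟩
    omega
  rcases lt_or_gt_of_ne hz2 with hzl | hzr'
  · have hmz : min z (q - z) = z := by omega
    rw [hmz] at hall
    exact case_left_left h hq h0 c z hc0 (by omega) (by omega) hAc hAz hall R1 nR1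
  · obtain ⟨b, hb⟩ : ∃ b, b = q - z := ⟨_, rfl⟩
    have hzb : z = q - b := by omega
    rw [hzb] at hAz hzV
    have hmz : min z (q - z) = b := by omega
    rw [hmz] at hall
    have hbc : 2 * c ≤ b := by
      by_contra h1
      exact nR1 b (by omega) (by omega) hzV
    exact case_left_right h hq h0 c b hc0 (by omega) hbc hAc hAz hall R1 nR1 (hz (q - b) c)

end Pool.Agent.OneExtra
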