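import Pool.Agent.OneExtra.Cfg

set_option autoImplicit false

/-!
# Case 2b: `0` is a common vertex, `q` is not, the nearest other common vertex is on the right
-/

namespace Pool.Agent.OneExtra

variable {q : ℤ} {V A : ℤ → Prop}

/-- Configuration (A): common vertices `0`, `c`, `q - (c - 1)`. -/
theorem case_A (h : Cfg q V A) (hq : 10 ≤ q) (h0 : A 0) (b c : ℤ) (hcb : c = b + 1)
    (hc : 2 ≤ c) (hqc : 2 * c + 1 ≤ q) (hAc : A c) (hAb : A (q - b))
    (hmin : ∀ x, A x → x = 0 ∨ (b ≤ x ∧ x ≤ q - b)) (R1 : ∀ t, 0 ≤ t → t < c → V (q - t))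
    (nV1 : ∀ t, 0 < t → t < c → ¬ V t)
    (hz : ∃ z, A z ∧ z ≠ 0 ∧ z ≠ q - b ∧ z ≠ c) : False := by
  have hV0 := h.sub _ h0
  have hVc := h.sub _ hAc
  have hVb := h.sub _ hAb
  have hVq : V q := by simpa using R1 0 le_rfl (by omega)
  have hne2 : ∀ x, A x → 2 * x ≠ q := by
    intro x hx h2
    exact h.cf hx hV0 hx hVq (by omega)
  have nV2 : ∀ x, c < x → x ≤ 2 * c → ¬ V x := by
    intro x hx1 hx2 hx
    rcases eq_or_lt_of_le hx2 with h1 | h1
    · exact h.cf h0 hVc hAc hx (by omega)
    · exact h.cf hAb (R1 (b - (x - c)) (by omega) (by omega)) hAc hx (by omega)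
  have nR1 : ∀ t, c ≤ t → t < 2 * c → ¬ V (q - t) := by
    intro t ht1 ht2 ht
    exact h.cf h0 ht hAc (R1 (t - c) (by omega) (by omega)) (by omega)
  have hR2c : V (q - 2 * c) := by
    obtain ⟨i, j, hij, hi, hj, hVi, hVj, hA⟩ := h.cv (2 * c) (by omega) (by omega)
    rcases hA with hA | hA
    · rcases hmin i hA with h1 | h1
      · have h2 : j = 2 * c := by omega
        rwa [h2] at hVj
      · exfalso
        rcases lt_trichotomy i c with h2 | h2 | h2
        · exact nV1 i (by omega) (by omega) hVi
        · exact nR1 j (by omega) (by omega) hVj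
        · exact nV2 i (by omega) (by omega) hVi
    · rcases hmin _ hA with h1 | h1
      · omega
      · rcases lt_trichotomy j (2 * c) with h2 | h2 | h2
        · exfalso
          rcases lt_or_ge j c with h3 | h3
          · exact nV2 i (by omega) (by omega) hVi
          · exact nR1 j (by omega) (by omega) hVj
        · rwa [h2] at hVj
        · omega
  obtain ⟨z, ⟨hAz, hz0, hzb, hzc⟩, hzmin⟩ := exists_near q
    (fun z => A z ∧ z ≠ 0 ∧ z ≠ q - b ∧ z ≠ c) hz (fun x hx => h.rng x (h.sub x hx.1))
  have hz2 := hne2 z hAz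
  have hzV := h.sub z hAz
  have hzz : b ≤ z ∧ z ≤ q - b := by
    rcases hmin z hAz with h1 | h1
    · exact absurd h1 hz0
    · exact h1
  have hall : ∀ x, A x → x = 0 ∨ x = q - b ∨ x = c ∨
      (min z (q - z) ≤ x ∧ x ≤ q - min z (q - z)) := by
    intro x hx
    by_cases h1 : x = 0
    · exact Or.inl h1
    by_cases h2 : x = q - b
    · exact Or.inr (Or.inl h2)
    by_cases h3 : x = c
    · exact Or.inr (Or.inr (Or.inl h3))
    have := hzmin x ⟨hx, h1, h2, h3⟩
    omega
  rcases lt_or_gt_of_ne hz2 with hzl | hzr'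
  · -- left
    have hd0 : c < z := by
      by_contra h1
      exact nV1 z (by omega) (by omega) hzV
    have hd1 : 2 * c < z := by
      by_contra h1
      exact nV2 z (by omega) (by omega) hzV
    have hmz : min z (q - z) = z := by omega
    rw [hmz] at hall
    have nV : ∀ x, z < x → x ≤ z + c → ¬ V x := by
      intro x hx1 hx2 hx
      rcases eq_or_lt_of_le hx2 with h1 | h1
      · exact h.cf h0 hVc hAz hx (by omega)
      · exact h.cf hAb (R1 (b - (x - z)) (by omega) (by omega)) hAz hx (by omega)
    have nR : ∀ j, z ≤ j → j ≤ z + c → ¬ V (q - j) := by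
      intro j hj1 hj2 hj
      rcases eq_or_lt_of_le hj2 with h1 | h1
      · exact h.cf hAc hj hAz hR2c (by omega)
      · exact h.cf h0 hj hAz (R1 (j - z) (by omega) (by omega)) (by omega)
    obtain ⟨i, j, hij, hi, hj, hVi, hVj, hA⟩ := h.cv (z + c) (by omega) (by omega)
    rcases hA with hA | hA
    · rcases hall i hA with h1 | h1 | h1 | h1
      · exact nR j (by omega) (by omega) hVj
      · exact nV i (by omega) (by omega) hVi
      · exact nR j (by omega) (by omega) hVj
      · rcases eq_or_lt_of_le h1.1 with h2 | h2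
        · exact nR1 j (by omega) (by omega) hVj
        · exact nV i (by omega) (by omega) hVi
    · rcases hall _ hA with h1 | h1 | h1 | h1
      · omega
      · exact nV i (by omega) (by omega) hVi
      · exact nR j (by omega) (by omega) hVj
      · exact nR j (by omega) (by omega) hVj
  · -- right
    obtain ⟨b', hb'⟩ : ∃ b', b' = q - z := ⟨_, rfl⟩
    have hzb' : z = q - b' := by omega
    rw [hzb'] at hAz hzV
    have hmz : min z (q - z) = b' := by omega
    rw [hmz] at hall
    have hbc : 2 * c ≤ b' := by
      by_contra h1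
      exact nR1 b' (by omega) (by omega) hzV
    rcases eq_or_lt_of_le hbc with hb2 | hb2
    · -- b' = 2c
      have n3 : ∀ x, c < x → x ≤ 3 * c → ¬ V x := by
        intro x hx1 hx2 hx
        rcases lt_trichotomy (x - c) c with h1 | h1 | h1
        · exact h.cf hAb (R1 (b - (x - c)) (by omega) (by omega)) hAc hx (by omega)
        · exact h.cf h0 hVc hAc hx (by omega)
        · exact h.cf hAz (R1 (3 * c - x) (by omega) (by omega)) hAc hx (by omega)
      have m3 : ∀ j, 2 * c < j → j ≤ 4 * c → ¬ V (q - j) := by
        intro j hj1 hj2 hj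
        rcases lt_trichotomy (j - 2 * c) c with h1 | h1 | h1
        · exact h.cf hAb (R1 (b - (j - 2 * c)) (by omega) (by omega)) hAz hj (by omega)
        · exact h.cf h0 hVc hAz hj (by omega)
        · exact h.cf hAz (R1 (4 * c - j) (by omega) (by omega)) hAz hj (by omega)
      obtain ⟨i, j, hij, hi, hj, hVi, hVj, hA⟩ := h.cv (2 * c + 1) (by omega) (by omega)
      rcases hA with hA | hA
      · rcases hall i hA with h1 | h1 | h1 | h1
        · exact m3 j (by omega) (by omega) hVj
        · exact n3 i (by omega) (by omega) hVi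
        · exact nR1 j (by omega) (by omega) hVj
        · exact n3 i (by omega) (by omega) hVi
      · rcases hall _ hA with h1 | h1 | h1 | h1
        · omega
        · exact n3 i (by omega) (by omega) hVi
        · omega
        · rcases eq_or_lt_of_le (show b' ≤ j by omega) with h2 | h2
          · exact nV1 i (by omega) (by omega) hVi
          · exact m3 j (by omega) (by omega) hVj
    · -- b' > 2c
      have R2 : ∀ u, 2 * c ≤ u → u < 3 * c → u < b' → V (q - u) := by
        intro u hu1 hu2 hu3
        obtain ⟨i, j, hij, hi, hj, hVi, hVj, hA⟩ := h.cv u (by omega) (by omega)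
        rcases hA with hA | hA
        · rcases hall i hA with h1 | h1 | h1 | h1
          · have h2 : j = u := by omega
            rwa [h2] at hVj
          · omega
          · exact absurd hVj (nR1 j (by omega) (by omega))
          · omega
        · rcases hall _ hA with h1 | h1 | h1 | h1
          · omega
          · exact absurd hVi (nV2 i (by omega) (by omega))
          · omega
          · omega
      have hb3 : 3 * c ≤ b' := by
        by_contra h1
        exact h.cf hAb (R1 (b - 1) (by omega) (by omega)) hAz (R2 (b' - 1) (by omega) (by omega)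
          (by omega)) (by omega)
      have hb4 : 4 * c ≤ b' := by
        by_contra h1
        exact h.cf h0 hzV hAc (R2 (b' - c) (by omega) (by omega) (by omega)) (by omega)
      obtain ⟨i, j, hij, hi, hj, hVi, hVj, hA⟩ := h.cv (b' - c) (by omega) (by omega)
      rcases hA with hA | hA
      · rcases hall i hA with h1 | h1 | h1 | h1
        · exact h.cf hAc hVj h0 hzV (by omega)
        · omega
        · exact h.cf hAb (R2 (3 * c - 1) (by omega) (by omega) (by omega)) hAz hVj (by omega)
        · omega
      · rcases hall _ hA with h1 | h1 | h1 | h1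
        · omega
        · exact h.cf hAc hVi hAz (R2 (3 * c - 1) (by omega) (by omega) (by omega)) (by omega)
        · omega
        · omega

/-- Case 2b. -/
theorem case_two_right (h : Cfg q V A) (hq : 10 ≤ q) (h0 : A 0) (b : ℤ) (hb0 : 0 < b)
    (hb2 : 2 * b ≤ q) (hAb : A (q - b)) (hmin : ∀ x, A x → x = 0 ∨ (b ≤ x ∧ x ≤ q - b))
    (hz : ∀ c, ∃ z, A z ∧ z ≠ 0 ∧ z ≠ q - b ∧ z ≠ c) : False := by
  have hV0 := h.V0 (by omega)
  have hVq := h.Vq (by omega)
  have hVb := h.sub _ hAb
  have hne2 : ∀ x, A x → 2 * x ≠ q := by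
    intro x hx h2
    exact h.cf hx hV0 hx hVq (by omega)
  have hb2' := hne2 _ hAb
  have R1' : ∀ t, 0 ≤ t → t < b → V (q - t) := by
    intro t ht1 ht2
    obtain ⟨i, j, hij, hi, hj, hVi, hVj, hA⟩ := h.cv t (by omega) (by omega)
    rcases hA with hA | hA
    · have h1 : i = 0 := by
        rcases hmin i hA with h1 | h1 <;> omega
      have h2 : j = t := by omega
      rwa [h2] at hVj
    · exfalso
      rcases hmin _ hA with h1 | h1 <;> omega
  have nV1 : ∀ t, 0 < t → t ≤ b → ¬ V t := by
    intro t ht1 ht2 ht
    exact h.cf h0 ht hAb (R1' (b - t) (by omega) (by omega)) (by omega)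
  have nR2 : ∀ j, b < j → j ≤ 2 * b → ¬ V (q - j) := by
    intro j hj1 hj2 hj
    exact h.cf hAb hj hAb (R1' (2 * b - j) (by omega) (by omega)) (by omega)
  have hAc : A (b + 1) := by
    obtain ⟨i, j, hij, hi, hj, hVi, hVj, hA⟩ := h.cv (b + 1) (by omega) (by omega)
    rcases hA with hA | hA
    · rcases hmin i hA with h1 | h1
      · exact absurd hVj (nR2 j (by omega) (by omega))
      · rcases eq_or_lt_of_le h1.1 with h2 | h2
        · exact absurd hVi (nV1 i (by omega) (by omega))
        · have h3 : i = b + 1 := by omega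
          rwa [h3] at hA
    · rcases hmin _ hA with h1 | h1
      · omega
      · rcases eq_or_lt_of_le (show b ≤ j by omega) with h2 | h2
        · exact absurd hVi (nV1 i (by omega) (by omega))
        · exact absurd hVj (nR2 j (by omega) (by omega))
  have hqb : q ≠ 2 * b + 1 := by
    intro h1
    obtain ⟨z, h2, h3, h4, -⟩ := hz 0
    rcases hmin z h2 with h5 | h5
    · exact h3 h5
    · exact nV1 z (by omega) (by omega) (h.sub z h2)
  have hc2 := hne2 _ hAc
  refine case_A h hq h0 b (b + 1) rfl (by omega) (by omega) hAc hAb hmin ?_ ?_ (hz (b + 1))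
  · intro t ht1 ht2
    rcases lt_or_ge t b with h1 | h1
    · exact R1' t ht1 h1
    · have h2 : t = b := by omega
      rwa [h2]
  · intro t ht1 ht2
    exact nV1 t ht1 (by omega)

end Pool.Agent.OneExtra
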