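import Mathlib

set_option autoImplicit false

/-!
# Graceful labellings of `K_r ∨ m K_1`: the abstract form

`V` is the set of labels, `A` the set of labels of the `r` common vertices. Two vertices are
adjacent when one of them is a common vertex.
-/

namespace Pool.Agent.OneExtra

/-- A graceful labelling in abstract form. -/
structure Cfg (q : ℤ) (V A : ℤ → Prop) : Prop where
  rng : ∀ x, V x → 0 ≤ x ∧ x ≤ q
  sub : ∀ x, A x → V x
  inj : ∀ x y x' y', V x → V y → V x' → V y' → (A x ∨ A y) → (A x' ∨ A y') → x < y → x' < y' →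
    y - x = y' - x' → x = x'
  cov : ∀ d, 1 ≤ d → d ≤ q → ∃ x y, V x ∧ V y ∧ (A x ∨ A y) ∧ x < y ∧ y - x = d

variable {q : ℤ} {V A : ℤ → Prop}

/-- The reflected labelling. -/
theorem Cfg.refl (h : Cfg q V A) : Cfg q (fun x => V (q - x)) (fun x => A (q - x)) where
  rng x hx := by
    have := h.rng _ hx
    constructor <;> omega
  sub x hx := h.sub _ hx
  inj x y x' y' hx hy hx' hy' ha ha' h1 h2 h3 := by
    have := h.inj (q - y) (q - x) (q - y') (q - x') hy hx hy' hx' ha.symm ha'.symm (by omega)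
      (by omega) (by omega)
    omega
  cov d h1 h2 := by
    obtain ⟨x, y, hx, hy, ha, hxy, hd⟩ := h.cov d h1 h2
    refine ⟨q - y, q - x, ?_, ?_, ?_, by omega, by omega⟩
    · simpa using hy
    · simpa using hx
    · simpa using ha.symm

/-- Two adjacent pairs with the same difference coincide. -/
theorem Cfg.cf (h : Cfg q V A) {a v b w : ℤ} (ha : A a) (hv : V v) (hb : A b) (hw : V w)
    (hh : v ≠ a ∧ (v - a = w - b ∨ v - a = b - w) ∧ ¬ (a = b ∧ v = w) ∧ ¬ (a = w ∧ v = b)) :
    False := by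
  have hVa := h.sub a ha
  have hVb := h.sub b hb
  obtain ⟨h1, h2, h3, h4⟩ := hh
  rcases lt_or_gt_of_ne h1 with h5 | h5
  · rcases h2 with h2 | h2
    · have := h.inj v a w b hv hVa hw hVb (Or.inr ha) (Or.inr hb) (by omega) (by omega) (by omega)
      omega
    · have := h.inj v a b w hv hVa hVb hw (Or.inr ha) (Or.inl hb) (by omega) (by omega) (by omega)
      omega
  · rcases h2 with h2 | h2
    · have := h.inj a v b w hVa hv hVb hw (Or.inl ha) (Or.inl hb) (by omega) (by omega) (by omega)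
      omega
    · have := h.inj a v w b hVa hv hw hVb (Or.inl ha) (Or.inr hb) (by omega) (by omega) (by omega)
      omega

/-- The difference `q - u` occurs. -/
theorem Cfg.cv (h : Cfg q V A) (u : ℤ) (h0 : 0 ≤ u) (h1 : u < q) :
    ∃ i j, i + j = u ∧ 0 ≤ i ∧ 0 ≤ j ∧ V i ∧ V (q - j) ∧ (A i ∨ A (q - j)) := by
  obtain ⟨x, y, hx, hy, ha, hxy, hd⟩ := h.cov (q - u) (by omega) (by omega)
  have hx' := h.rng x hx
  have hy' := h.rng y hy
  refine ⟨x, q - y, by omega, by omega, by omega, hx, ?_, ?_⟩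
  · simpa using hy
  · simpa using ha

theorem Cfg.V0 (h : Cfg q V A) (hq : 0 < q) : V 0 := by
  obtain ⟨i, j, hij, hi, hj, hVi, -, -⟩ := h.cv 0 le_rfl hq
  have : i = 0 := by omega
  rwa [this] at hVi

theorem Cfg.Vq (h : Cfg q V A) (hq : 0 < q) : V q := by
  obtain ⟨i, j, hij, hi, hj, -, hVj, -⟩ := h.cv 0 le_rfl hq
  have : q - j = q := by omega
  rwa [this] at hVj

theorem Cfg.A0q (h : Cfg q V A) (hq : 0 < q) : A 0 ∨ A q := by
  obtain ⟨i, j, hij, hi, hj, -, -, hA⟩ := h.cv 0 le_rfl hq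
  have h1 : q - j = q := by omega
  have h2 : i = 0 := by omega
  rwa [h1, h2] at hA

/-- A nearest element (distance to `{0, q}`) of a nonempty set of labels. -/
theorem exists_near (q : ℤ) (S : ℤ → Prop) (hS : ∃ x, S x) (hb : ∀ x, S x → 0 ≤ x ∧ x ≤ q) :
    ∃ x, S x ∧ ∀ y, S y → min x (q - x) ≤ min y (q - y) := by
  obtain ⟨x, hx, hmin⟩ := (measure (fun x : ℤ => (min x (q - x)).toNat)).wf.has_min
    {x | S x} hS
  refine ⟨x, hx, fun y hy => ?_⟩
  have h1 := hmin y hy
  have h2 := hb x hx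
  have h3 := hb y hy
  simp only [InvImage, WellFoundedRelation.rel] at h1
  by_contra h4
  apply h1
  show (min y (q - y)).toNat < (min x (q - x)).toNat
  omega

end Pool.Agent.OneExtra
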