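import Pool.Agent.OneExtra.CaseOne
import Pool.Agent.OneExtra.CaseTwoLeft
import Pool.Agent.OneExtra.CaseTwoRight

set_option autoImplicit false

/-!
# There is no configuration with at least four common vertices
-/

namespace Pool.Agent.OneExtra

variable {q : ℤ} {V A : ℤ → Prop}

theorem no_config_zero (h : Cfg q V A) (hq : 10 ≤ q) (h0 : A 0)
    (hz : ∀ a b c, ∃ z, A z ∧ z ≠ a ∧ z ≠ b ∧ z ≠ c) : False := by
  by_cases hAq : A q
  · exact case_one h hq h0 hAq (fun c => hz 0 q c)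
  obtain ⟨z, ⟨hAz, hz0⟩, hmin⟩ := exists_near q (fun z => A z ∧ z ≠ 0)
    (by obtain ⟨z, h1, h2, -⟩ := hz 0 0 0; exact ⟨z, h1, h2⟩)
    (fun x hx => h.rng x (h.sub x hx.1))
  have hzq : z ≠ q := by
    intro h1
    exact hAq (h1 ▸ hAz)
  have hzr := h.rng z (h.sub z hAz)
  have hmin' : ∀ x, A x → x = 0 ∨ (min z (q - z) ≤ x ∧ x ≤ q - min z (q - z)) := by
    intro x hx
    by_cases h1 : x = 0
    · exact Or.inl h1
    have := hmin x ⟨hx, h1⟩
    omega
  by_cases hzl : 2 * z ≤ q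
  · have hmz : min z (q - z) = z := by omega
    rw [hmz] at hmin'
    exact case_two_left h hq h0 z (by omega) hzl hAz hmin' (fun a b => by
      obtain ⟨x, h1, h2, h3, h4⟩ := hz 0 a b
      exact ⟨x, h1, h2, h3, h4⟩)
  · have hmz : min z (q - z) = q - z := by omega
    rw [hmz] at hmin'
    refine case_two_right h hq h0 (q - z) (by omega) (by omega) (by simpa using hAz) hmin'
      (fun c => ?_)
    obtain ⟨x, h1, h2, h3, h4⟩ := hz 0 z c
    exact ⟨x, h1, h2, by omega, h4⟩

theorem no_config (h : Cfg q V A) (hq : 10 ≤ q)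
    (hz : ∀ a b c, ∃ z, A z ∧ z ≠ a ∧ z ≠ b ∧ z ≠ c) : False := by
  rcases h.A0q (by omega) with h0 | h0
  · exact no_config_zero h hq h0 hz
  · refine no_config_zero h.refl hq (by simpa using h0) (fun a b c => ?_)
    obtain ⟨x, h1, h2, h3, h4⟩ := hz (q - a) (q - b) (q - c)
    exact ⟨q - x, by simpa using h1, by omega, by omega, by omega⟩

end Pool.Agent.OneExtra
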